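import Mathlib
import Pool.Agent.H855.TateDefs
import Pool.Agent.H855.PlaceDefs
import Pool.Agent.H855.PlaceCore

/-!
# Abelian varieties over finite fields with a place of coprime degree

Let `A` be a simple abelian variety over the field with `q = p ^ a` elements, `f` the minimal
polynomial of its Frobenius endomorphism `π`, `K = ℚ(π)`, `K⁺ = ℚ(π + q / π)`, `g = [K⁺ : ℚ] ≥ 3`.
Suppose that for some prime number `r` the field `K⁺` has a place `u` over `r` of degree `n`,
`2 ≤ n < g`, such that `n` is coprime to the degrees of all other places over `r`. Suppose also that
`K⁺` has no proper subfields, or that `n` is coprime to `g` and larger than all proper divisors of `g`.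

Theorem. If `g` is odd, or `g - 1` is prime, or `n ≤ g - 2` and `u` splits in `K` (and the other
places over `r`, too, if `n` is even), or `n = g - 1`, `r = p`, `u` splits and the slope at the other
place is not in one of finitely many proportions to the slope at `u`, then:

* all Tate classes on all powers of `A`, over all finite extensions of the ground field, are polynomials
  in Tate classes of degree two and certain classes of degree `g`;
* the classes of degree two suffice if and only if `A` is not of Weil type;
* `A` is not of Weil type if there is a root of odd local degree `N` and of slope `s` with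
  `N |2 s - 1| > g - N`.

There is no hypothesis on the Galois group of `f`. The proof: the decomposition group of a place of
the splitting field over `u` has an orbit `O` of length `n` on the set `B` of the `g` pairs
`{α, q / α}`, and the stabiliser of each `b` outside of `O` is transitive on `O`. We prove that this
implies that the Galois group is doubly transitive on `B` (for primitive groups a variant of a
theorem of Jordan). A multiplicative relation between the roots defines a regular two-graph on `B`
with an integral matrix `C` of signs with the two eigenvalues `- a`, `a'`, where
`a a' = g - 1`, and all rows of `C` outside of the block `O` are constant on it. A computation of the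
invariants of the block shows `a = 1` or `a' = 1`; so the relations are multiples of a sign
character.
-/

namespace Pool.Agent.Results.MP_950c68_ag.CoprimePlace

open Polynomial Pool.Agent.H855.TateDefs Pool.Agent.H855.PlaceDefs

/-- **A place of coprime degree of the maximal real subfield.** -/
theorem result.{u, v} (p : ℕ) [Fact p.Prime] (a : ℕ) (ha : 0 < a) (g : ℕ) (hg : 3 ≤ g)
    (f : ℚ[X]) (hf : IsSimpleWeil p a g f) (hnd : IsNondegenerate f ∨ HasTwoSlopes p a f)
    (hpl : HasCoprimePlace (p ^ a) g f ∨ HasLargeSlopePlace p a g f) :
    TateClassesGeneratedInDegree.{u, v} (p ^ a) g f ∧
    (¬ IsWeilType p a f → TateClassesDecomposable.{u, v} (p ^ a) f) ∧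
    (IsWeilType p a f → ¬ TateClassesDecomposable.{0, 0} (p ^ a) f) ∧
    (∀ α : PadicAlgCl p, aeval α f = 0 → Odd (minpoly ℚ_[p] α).natDegree →
      (g : ℝ) - (minpoly ℚ_[p] α).natDegree <
        (minpoly ℚ_[p] α).natDegree * |2 * slope p a α - 1| → ¬ IsWeilType p a f) :=
  ⟨Pool.Agent.H855.tate_generated ha hg hf hnd hpl,
    Pool.Agent.H855.tate_of_not_weil ha hg hf hnd hpl,
    fun hw => Pool.Agent.H855.exotic_of_weil hf.irreducible hf.weil hf.isIntegral ha g
      hf.natDegree_eq (by omega) hw,
    fun α hα hodd hlarge => Pool.Agent.H855.not_weil_of_large ha hf α hα hodd hlarge⟩

end Pool.Agent.Results.MP_950c68_ag.CoprimePlace
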