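import Mathlib
import Pool.Agent.H855.DP.Space

/-!
# The Tate conjecture for the products `X ^ r × Y ^ s` of all powers of two varieties over finite fields,
outside of one exceptional space

For a given variety `Y` over a finite field the result `ProductsOfVarieties` for this problem gives
finitely many exceptional slope vectors, such that for all varieties `X` which avoid them the conjecture
of Tate for `X × Y` is equivalent to the one for `X` and for `Y`. For the powers `Y ^ s` the sets of
exceptional vectors are different, and their numbers grow with `s`. We show that there is **one**
exceptional space of finite dimension, which is sufficient for all powers of `Y`, and more generally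
for all varieties whose Frobenius eigenvalues are in the group generated by those of `Y`.

We fix an isomorphism `ν` of the algebraic closure of `ℚ_p` with `ℂ`; it defines a `p`-adic valuation
`v` of `ℂ` with `v p = 1`. Let `Ω` be a finite set of complex numbers which is stable under the
automorphisms of `ℂ` and whose elements are nonzero and lie in CM fields or totally real fields
(`IsStable`), for instance the set of all Frobenius eigenvalues of a smooth projective variety `Y`. Let
`V` be the rational vector space generated by the functions `σ ↦ v (conj (σ β)) - v (σ β)` on the
automorphisms of `ℂ`, for `β` in `Ω` (`slopeSpan`). For a CM field `E` let `V(E)` be the space of the odd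
real functions `f` on the complex embeddings of `E` such that for all embeddings `φ` the function
`σ ↦ f (σ φ)` is in `V` (`excSpace`): **the exceptional space of `E`**. It depends only on `ν`, `Ω`
and `E`. Let `d = dim V`.

**1. The exceptional spaces are small** (`SpacesAreSmall`): `2 d ≤ |Ω|`; `dim V(E) ≤ d` for all CM fields
`E`; and there are at most `d` pairwise unrelated CM fields `E i` with `V(E i) ≠ 0`, more precisely
`∑ m i ≤ d` for all finite families of such fields, where `m i` is a lower bound for the dimensions of
the nonzero stable spaces of odd rational functions on the embeddings of `E i` (`IsLowerBound`). (Two
fields are unrelated if there are no nonzero equivariant maps between their odd functions.)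

**2. The decoupling** (`DecoupledOutsideSpaces`). Let `π j` (`j` in a finite set) be Weil numbers for
`p ^ a`, any `a > 0`, in CM fields `L j`. The slope vector of `π j` is the function
`x j φ = 2 v (φ (π j)) - a` on the complex embeddings `φ` of `L j` (`slopeVector`). We suppose that **no
nonzero vector of the exceptional spaces `V(L j)` is a combination of the slope vectors** (the sum of
the images of the `x i` under equivariant maps with rational coefficients, which are zero for unrelated
fields, `IsCombination`). Let `Q = p ^ r`, and let `X` and `Y` be smooth geometrically connected
varieties over the field with `Q` elements, proper or not. The eigenvalues of weight `a` on `H^a` are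
all eigenvalues if the variety is proper (`IsPure`). We suppose that

* a power of every eigenvalue of weight `b` on `H^b(X)` is a product of powers of conjugates of the `π j`
  and of `p`, for all `b` (`PureGenerated`);
* a power of every eigenvalue of weight `b` on `H^b(Y)` is a product of powers of elements of `Ω` and of
  `p`, for all `b` (`PureInGroup`);
* one of `X` and `Y` is tight: its only supersingular eigenvalues of weight `b` on `H^b` are the powers
  of `Q` (`TightPure`; supersingular: all slopes are equal).

**Then (`Decoupled`), for all `m`:**

1. the eigenvalue `Q ^ n` of Frobenius on `H^(2 n)(X × Y)` is semisimple for all `n ≤ m` if and only if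
   this is true for `X` and for `Y`;
2. **this and `E^n(X × Y) = A^n(X × Y)` for all `n ≤ m` is equivalent to the same for `X` and for `Y`**;
3. if Frobenius is semisimple at `Q ^ n`, `n ≤ m`, for one of `X` and `Y` (for instance, if `X` is an
   abelian variety), then `E^n(X × Y) = ∑ E^i(X) ⊗ E^(n - i)(Y)` for `n ≤ m`, and
   **`E^n(X × Y) = A^n(X × Y)` for all `n ≤ m` if and only if `E^n(X) = A^n(X)` and `E^n(Y) = A^n(Y)` for
   all `n ≤ m`.**

**All powers.** If the eigenvalues of `X` are generated by the `π j` and `Ω` is the set of the eigenvalues
of `Y`, then the assumptions on the eigenvalues are satisfied for all `X ^ r` and `Y ^ s` and for the
base changes to all finite extensions, with the same `π j`, `Ω` and the same exceptional spaces. So the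
conjecture of Tate (with the semisimplicity) for `X ^ r × Y ^ s` is equivalent to the one for `X ^ r`
and for `Y ^ s`, for all `r` and `s` at the same time (if one of them is tight). For instance, if all
Tate classes on the powers of the abelian variety `X` are generated by divisor classes then the
conjecture for all `X ^ r × Y ^ s` (with `r ≥ 1`) follows from the one for all the powers of `Y`, and if
this is known for the powers of `Y` too it is true for all `X ^ r × Y ^ s`. Every smooth projective `X`
is of the kind considered (up to isomorphism of the fields): its eigenvalues are, up to powers,
rational or Weil numbers in CM fields, and we can take powers such that all of them are Weil numbers for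
the same `p ^ a`. No independence of the `π j` is supposed, and the Tate classes on the powers of `X`
and `Y` can be exotic.

**How large is the exceptional set?** Let `E` be a CM field and let `X` run through the abelian varieties
with complex multiplication by `E`, over all finite fields of characteristic `p`. If the odd rational
functions on the embeddings of `E` are an absolutely irreducible representation then the slope vector
`x` of `X` satisfies the condition if it is not in `V(E)`, a rational vector space of the dimension at
most `d ≤ |Ω| / 2`; if `E` is unrelated to the fields in which `V(E) ≠ 0` then there is no condition.
(Some condition is necessary: the abelian variety `X = Y` has the invariants of `H^1(X) ⊗ H^1(Y)`.)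

The framework is the one of `ProductsOfVarieties` (`VarietyData`, `IsSmooth`, `PairH`, `ProductData`,
`IsProduct`): the cohomology groups of `X` and `Y`, with complex coefficients (we choose an isomorphism
of the algebraic closure of `ℚ_ℓ` with `ℂ`), with the Frobenius endomorphisms, the spaces `A^i` spanned
by the classes of cycles, the class of `X`, the restriction to a point, and the theorem of Deligne on the
weights; the cohomology of `X × Y` is the tensor product, by the Künneth formula; the products of
cycles are cycles, and the restrictions of cycles on `X × Y` to `{x} × Y` and `X × {y}` are cycles.

The proof. The space `V` is stable under the translations by automorphisms of `ℂ`. Let `α` and `β` be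
eigenvalues of `X` and `Y` with `α β = Q ^ n` on groups whose degrees have the sum `2 n`; they have the
weights `b` and `2 n - b` by the theorem of Deligne. The function `g` of `β` is in `V`, as a power of `β`
is a product of powers of elements of `Ω` and of `p` (`generated_memQ`), and, up to a factor, it is a
value `σ ↦ ∑ n (j, ψ) x j (σ ψ)` of the relation map of the `π j`, with an odd rational function `n`
(`relMap_generated`). If `g ≠ 0` then the composition of the orthogonal projection to the representation
generated by `n` with the relation map is an equivariant map from the odd functions on all embeddings to
the representation generated by `g`, hence to `V`, which is not zero, hence not zero on the odd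
functions of one of the fields `L j`. There it is given by a vector `f ≠ 0` of `V(L j)`
(`exists_vector`), which is a combination of the slope vectors (`isCombination_of`), a contradiction
(`oddLog_eq_zero`). So `g = 0`, `α` and `β` are supersingular, and powers of `Q`; the statements follow
from the decomposition of `H^a(X) ⊗ H^b(Y)` under the Frobenius endomorphisms (`decoupled`).

The sizes. The map `f ↦ (σ ↦ f (σ φ))` from `V(E)` to `V` is injective, as the automorphisms of `ℂ` are
transitive on the embeddings of `E` (`finrank_excSpace`). For a vector `f i ≠ 0` in `V(E i)` let `C i` be
the orthogonal complement of the relations `n`, `∑ n φ f i (σ φ) = 0` for all `σ`, in the odd rational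
functions: it is stable and not zero, so `m i ≤ dim C i`; and if the `E i` are pairwise unrelated then
the map `(n i) ↦ ∑ n i φ f i (σ φ)` from `∏ C i` to `V` is injective (`exists_complement`, `sum_le`).
-/

set_option autoImplicit false

namespace Pool.Agent.Results.MP_950c68_ag.ExceptionalSpaces

open NumberField Pool.Agent.V1168.EF Pool.Agent.H855.DP

/-- **For all smooth varieties `X` and `Y` over finite fields, where the Frobenius eigenvalues of `Y` are in
the group generated by the finite set `Ω` and those of `X` are generated by Weil numbers `π j` in CM
fields `L j`, such that no nonzero vector of the exceptional spaces of the `L j`, which have at most the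
dimension `|Ω| / 2`, is a combination of the slope vectors of the `π j`: the conjecture of Tate (with
the semisimplicity) for `X × Y` in the codimensions up to `m` is equivalent to the one for `X` and for
`Y`.** -/
theorem result {p : ℕ} [Fact p.Prime] (ν : PadicAlgCl p ≃+* ℂ) (Ω : Finset ℂ) (hΩ : IsStable Ω) :
    SpacesAreSmall Ω.card (slopeSpan ν Ω) ∧ DecoupledOutsideSpaces ν Ω :=
  ⟨spacesAreSmall ν hΩ, decoupledOutsideSpaces ν hΩ⟩

end Pool.Agent.Results.MP_950c68_ag.ExceptionalSpaces
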