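import Mathlib
import Pool.Agent.H395.Tate.Main
import Pool.Agent.H395.Tate.Prime

/-!
# The Tate conjecture for products of arbitrarily many abelian varieties of dimension at most six
with multiplication by one imaginary quadratic field

Let `k` be an imaginary quadratic field (`Q : ImagQuad`). Over an algebraic closure of the field with
`p` elements each abelian variety is isogenous to the reduction of an abelian variety of CM type
(Honda, Tate). Let `Z` (`RedAV`, library) be such a reduction: a product of factors `A i` (finitely
many, the number is arbitrary), with CM types on CM fields `F i` (so that the dimension of `A i` is
one half of the degree of `F i`) and with Frobenius endomorphisms `π i` in `F i`. Suppose that the
fields `F i` contain `k` (`θ i`) and that the multiplicative relations between `p` and the conjugates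
of the numbers `π i` are, up to trivial ones, **constant over `k`** (`QuadShape`): in a relation the
difference of the exponents at `φ (π i)` and at its complex conjugate does not depend on the
embedding `φ` of `F i` over `k`. **Second part.** This holds (`FieldTypes`) if all positive powers of
`π i` generate `F i`, the degree of `F i` over `k` is one or a prime number, or the automorphisms over
`k` act doubly transitively on the embeddings of `F i` over `k` (for instance, if `F i` is the
compositum of `k` and of a totally real field of degree four or six, with the symmetric or
alternating group), and `F i` is linearly disjoint over `k` from the Galois closures of the other
fields.

**First part.** Suppose that (`SmallOver`)

* `p` splits in `k`, all `A i` have dimension at most six, the signatures of `k` on them are `(n, n)`,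
  `(n, n + 1)` or `(n + 1, n)` (`defect`), and one of them is an elliptic curve, or
* `p` does not split in `k`, and all `A i` have dimension at most five (all signatures).

Then the multiplicative relations between the Frobenius eigenvalues are generated by elementary ones
(`HasElementaryRelations`, library: relations with at most two eigenvalues, Weil relations of
dimension at most six, and relations in good sets of factors, which are not needed here), and
**all Tate classes** of all degrees over all finite extensions, on all abelian varieties `Y` which are
isogenous over the algebraic closure to products of arbitrary powers (with exponents zero, one,
two, ...) of the `A i` and of supersingular abelian varieties, belong to the smallest system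
`Alg` (library) of classes which contains the classes of degree zero, the Tate classes of degree two and
the reductions of split Weil classes on abelian fourfolds and sixfolds of CM type, and which is stable
under linear combinations, cup products, pull-backs along homomorphisms and push-forwards along
projections (`TateFor`). The Tate classes of degree two are algebraic (Tate), the Weil classes on
fourfolds and the split Weil classes on sixfolds are algebraic (Markman). So the Tate conjecture holds
for all these `Y`. The coefficients are in an arbitrary algebraically closed field of characteristic
zero, for instance an algebraic closure of the field of `l`-adic numbers.

The dimension of `Y` and the number of its nonisogenous factors are not bounded. If `k` is given and `p`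
splits in `k` there is an elliptic curve with multiplication by `k` and slopes zero and one (Deuring);
it may always be added to the `A i` (a relation which involves it is constant over `k` if the
relations of the others are: compare it with its conjugates over `k`), and as the exponents may be zero
the result is about the `A i` of dimension at most six with the signatures above alone. There are
exotic Tate classes (not generated by classes of divisors) on these `Y`: if `p` does not split already
on the powers of a single `A i`, because the norm of `π i` from `F i` to `k` is a root of
unity times a power of the square root of `q`; if `p` splits on `A i` if the signature is `(n, n)`, and on
products `A i × A j` or `A i × E` of odd dimensions otherwise. For instance the theorem applies to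
`A³ × B × C²` where `A`, `B` and `C` are abelian varieties of dimension five, five and three
with the signatures `(2, 3)`, `(2, 3)` and `(1, 2)`.

The proof (`Pool.Agent.H395.Tate`): as the exponents of a relation are constant over `k`, up to
trivial relations it is a combination of the relations which belong to the sets of embeddings of
the `A i` over `k`; after twisting by the elliptic curve `E` these are Weil relations of `A i`
or of `A i × E` (the signature of which is then `(m, m)`, with `m` at most three), and `E` itself is not
supersingular, so that no power of its eigenvalue can be left. The relations are computed by the
formula of Shimura and Taniyama: for a sum of embeddings over `k` the slope is a multiple of the sum
of the signature defects, and it is one half of the number of embeddings if `p` does not split. The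
criterion of the library (`TH117.BL.elementary`) then gives the statement on Tate classes.
-/

set_option autoImplicit false

namespace Pool.Agent.Results.MP_950c68_ag.ExoticProductsOverQuadratic

open Pool.Agent.W495.TA Pool.Agent.W547.KB Pool.Agent.H395.Cyc Pool.Agent.TH117.BL
  Pool.Agent.H395.Tate

theorem result (p : ℕ) [Fact p.Prime] (ν : PadicAlgCl p ≃+* ℂ) (Q : ImagQuad) (Z : RedAV p ν)
    (θ : ∀ i, FHom Q.k (Z.X.factor i).E) :
    (SmallOver Q Z θ → HasElementaryRelations Z ∧ TateFor Z) ∧
      (FieldTypes Q Z θ → QuadShape Q Set.univ (frobNum Z) (fun i _ => θ i)) :=
  ⟨fun h => ⟨hasElementaryRelations h, tate_of_small h⟩, fun h => shape_of_fields h⟩

end Pool.Agent.Results.MP_950c68_ag.ExoticProductsOverQuadratic
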