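import Pool.Agent.H857.PD.Full
import Pool.Agent.H857.SX.Defs
import Pool.Agent.H857.TF.Full4

/-!
# MP_950c68_ag: Tate classes on the powers of abelian varieties of odd prime dimension over finite
fields, and the exact order of magnitude of the number of the exceptional isogeny classes

Let `g ≥ 3` be a prime number, let `q = p ^ a` be a prime power, and let `W` be the set of the Weil
polynomials of degree `2 g` relative to `q` with integral Newton polygons (`weilPolynomials p a g`).
It contains the characteristic polynomials of the Frobenius endomorphisms of all abelian varieties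
`A` of dimension `g` over the field with `q` elements, which determine them up to isogeny (Weil,
Tate); an irreducible `f` in `W` is one of them if and only if the constant terms of its
irreducible factors over the field of `p`-adic numbers have absolute values in `q ^ ℤ` (`HondaTate`).

There are constants `C > 0` and `M > 0`, which depend only on `g`, and `c p > 0`, which depend only on
`g` and `p`, with `c p ≤ C` for `g = 3` and `g = 5`, such that for all prime powers `q`:

1. `W` is finite, of the exact order of magnitude `√q ^ (g (g + 1) / 2)`, and at most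
   `C √q ^ (g (g - 1) / 2 + 1)` elements of `W` are not irreducible.
2. If there are no exotic Tate classes on the powers of `A`, then the formula of Tate holds for all
   powers of `A`, in all codimensions, over all extensions of the field with `q ^ M` elements: for
   the zeta function and the products of divisor classes (`PolesOfAllPowers`), and for the Chow groups
   and every Weil cohomology (`TateForPowers`).
3. If `f` is irreducible and there are exotic Tate classes on a power of `A`, then `A` is of Weil type
   (`OfOddWeilType`): `f = h h̄` over an imaginary quadratic field, and the square of the constant term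
   of `h` is the product of `q ^ g` and a root of unity; all Tate classes on all powers of `A`, over all
   extensions of the field with `q ^ M` elements, are polynomials in the Tate classes of codimensions
   one and `g` (`GeneratedByWeilClasses`), and the conjecture of Tate for all powers of `A`, in all
   codimensions, follows from its part in codimension `g` (`TateFromCodim`). If `f` satisfies the
   condition of Honda and Tate, the exotic classes are reductions of Hodge classes (`LiftsToWeilType`):
   there are two CM types `Φ₁`, `Φ₂` of the field `E = ℚ[X] / (f)` with the slopes of `f` (formula of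
   Shimura and Taniyama) which together contain `g` roots of `h` and `g` roots of `h̄`. By Honda, `A` is up
   to isogeny and finite extensions the reduction of abelian varieties `A₁`, `A₂` with complex
   multiplication of these types; `A₁ × A₂` is of Weil type with the signature `(g, g)`, with a
   polarization of discriminant `(-1) ^ g`, and its Weil classes are Hodge classes which reduce to the
   exotic classes on `A ^ 2`. (For `g = 3` they are algebraic by a theorem of Markman, 2025.)
4. At most `C √q ^ e` irreducible elements `f` of `W` have exotic classes, where `e = oddOrder g` is `3`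
   for `g = 3`, `7` for `g = 5` and `(g ^ 2 - 1) / 4` for `g ≥ 7`. For `g = 3` and `g = 5` this holds for
   all elements `f` of `W`, irreducible or not.
5. If `q = p ^ (2 b)` is a square and `√q > c p`, there are at least `√q ^ e / c p` irreducible elements
   of `W` which come from abelian varieties (`HondaTate`), almost ordinary (the coefficient of `X ^ (g +
   1)` is prime to `p`) and of Weil type, such that there are exotic Tate classes of codimension `g` on
   `A ^ 2` over the field with `q` elements (`ExoticInCodim` for `f ^ 2`), and
   `GeneratedByWeilClasses` and `TateFromCodim` hold for the field with `q` elements.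

So the number of the isogeny classes of abelian threefolds (fivefolds) over the field with `q`
elements, simple or not, for which there are exotic Tate classes on some power, is of the exact order
of magnitude `q ^ (3 / 2)` (`q ^ (7 / 2)`), if `q` is a square, uniformly in `q`, among all isogeny
classes, of which there are about `q ^ 3` (`q ^ (15 / 2)`).

Idea of the proof. In prime dimension the Galois group of an irreducible `f` permutes the `g` pairs of
conjugate roots transitively, so it contains an element which permutes the pairs cyclically, and the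
permutation module of a cyclic group of prime order `g` has only four submodules over `ℚ`
(irreducibility of the cyclotomic polynomial): so every relation, beyond the trivial ones, is a multiple
of `∏ β i ^ 2 = ζ q ^ g`, with one root of each pair, and the Galois group permutes the `β i` up to a
simultaneous complex conjugation. The coefficients of `h` lie in lattices in the imaginary quadratic
fields, and the sum over all fields gives the upper bound. For the lower bound one takes the constant
term `√q ^ g` and the fields in which `p` does not split (otherwise `f` does not come from an abelian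
variety), with a reduction modulo a third prime such that `h` is irreducible. For `g ≤ 5` one needs
many fields, up to a power of `q`, and for `g ≥ 7` one field, which depends on `p`.

The statements of the steps (`Pool.Agent.H857.PD.Core`, `Pool.Agent.H857.SG.Core`,
`Pool.Agent.H857.WT.Core`, `Pool.Agent.H857.EF.Core`) were proved by members of the team: helpers 42,
44, 79, 116, 120, 162, 196, 199, 229, 233, 236, 263, 277, 289, 295, 296, 297, 335, 344, 348, 370, 494,
548, 591, 596, 599, 628, 643, 685, 686, 719, 721, 722, 738, 747, 790, 795, 857, 894, 947, 977 and 997.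
-/

set_option autoImplicit false

namespace Pool.Agent.Results.MP_950c68_ag.OddPrimeDimension

open Polynomial Pool.Agent.H857.EF Pool.Agent.H857.WT Pool.Agent.H857.SG Pool.Agent.H857.PD
  Pool.Agent.H857.SX

open Classical in
/-- `Φ` is a set of roots of `f` in the algebraic closure of the field of `p`-adic numbers, or of
embeddings of the field `E = ℚ[X] / (f)`, which contains exactly one of the conjugate roots `z`, `q / z`
(a CM type of `E`), such that for each irreducible factor `h` of `f` over the field of `p`-adic
numbers the valuation of `h (0)` (the one with the value `1` at `q`) is the number of the roots of `h`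
in `Φ`. By the formula of Shimura and Taniyama and the theorem of Honda the abelian varieties
with complex multiplication by `E` of the type `Φ` are lifts of the abelian variety with the
polynomial `f` to characteristic zero, up to isogeny and finite extensions of the field. -/
def IsLiftType (p : ℕ) [Fact p.Prime] (a : ℕ) (f : ℤ[X]) (Φ : Finset (PadicAlgCl p)) : Prop :=
  (∀ z ∈ Φ, aeval z f = 0) ∧
  (∀ z : PadicAlgCl p, aeval z f = 0 → ((p : PadicAlgCl p) ^ a / z ∈ Φ ↔ z ∉ Φ)) ∧
  ∀ h : ℚ_[p][X], h.Monic → Irreducible h → h ∣ f.map (Int.castRingHom ℚ_[p]) →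
    ‖h.coeff 0‖ = (((p : ℝ) ^ a)⁻¹) ^ (Φ.filter fun z => aeval z h = 0).card

open Classical in
/-- The abelian variety with the polynomial `f` is of Weil type for the imaginary quadratic field `K`:
`f = h h̄`, where the polynomials `h` and `h̄` over `K` are coprime and `h (0) ^ 2 / q ^ g` is a root of
unity. For every embedding of the field of complex numbers in the algebraic closure of the field of `p`-adic
numbers, it has two lifts, of CM types `Φ₁` and `Φ₂`, such that their product is of Weil type with the
signature `(g, g)`: `Φ₁` and `Φ₂` together contain `g` roots of `h`. -/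
def LiftsToWeilType (p : ℕ) [Fact p.Prime] (a g : ℕ) (f : ℤ[X]) : Prop :=
  ∃ (D : ℕ) (h : ℂ[X]), 0 < D ∧ h.Monic ∧ (∀ j, h.coeff j ∈ quadField D) ∧
    f.map (Int.castRingHom ℂ) = h * h.map (starRingEnd ℂ) ∧
    IsCoprime h (h.map (starRingEnd ℂ)) ∧
    (∃ N : ℕ, 0 < N ∧ h.coeff 0 ^ (2 * N) = (((p ^ a : ℕ) : ℂ) ^ g) ^ N) ∧
    ∀ ψ : ℂ →+* PadicAlgCl p, ∃ Φ₁ Φ₂ : Finset (PadicAlgCl p),
      IsLiftType p a f Φ₁ ∧ IsLiftType p a f Φ₂ ∧
      (Φ₁.filter fun z => eval z (h.map ψ) = 0).card +
        (Φ₂.filter fun z => eval z (h.map ψ) = 0).card = g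

/-- **Abelian varieties of odd prime dimension.** -/
theorem result (g : ℕ) (hg : g.Prime) (hg3 : 3 ≤ g) : ∃ C : ℝ, 0 < C ∧ ∃ M : ℕ, 0 < M ∧
    ∃ c : ℕ → ℝ, (∀ p, 0 < c p) ∧ (g ≤ 5 → ∀ p, c p ≤ C) ∧
    ∀ (p : ℕ) [Fact p.Prime] (a : ℕ), 0 < a →
      -- all isogeny classes, and the reducible polynomials
      ((weilPolynomials p a g).Finite ∧
        Real.sqrt ((p : ℝ) ^ a) ^ (g * (g + 1) / 2) ≤ C * (weilPolynomials p a g).ncard ∧
        (weilPolynomials p a g).ncard ≤ C * Real.sqrt ((p : ℝ) ^ a) ^ (g * (g + 1) / 2) ∧
        ({f ∈ weilPolynomials p a g | ¬ Irreducible f}.ncard : ℝ) ≤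
          C * Real.sqrt ((p : ℝ) ^ a) ^ (g * (g - 1) / 2 + 1)) ∧
      -- no exotic classes
      (∀ f ∈ weilPolynomials p a g, ¬ ExoticOnPower (p ^ a) f → ∃ F : ℤ[X], IsPowerPoly f M F ∧
        PolesOfAllPowers ((p ^ a) ^ M) F ∧ TateForPowers ((p ^ a) ^ M) F) ∧
      -- exotic classes
      (∀ f ∈ weilPolynomials p a g, Irreducible f → ExoticOnPower (p ^ a) f →
        OfOddWeilType (p ^ a) g f ∧ (HondaTate p a f → LiftsToWeilType p a g f) ∧
          ∃ F : ℤ[X], IsPowerPoly f M F ∧
            GeneratedByWeilClasses g ((p ^ a) ^ M) F ∧ TateFromCodim g ((p ^ a) ^ M) F) ∧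
      -- the number of the isogeny classes with exotic classes, upper bounds
      ({f ∈ weilPolynomials p a g | OfOddWeilType (p ^ a) g f}.ncard : ℝ) ≤
        C * Real.sqrt ((p : ℝ) ^ a) ^ oddOrder g ∧
      ({f ∈ weilPolynomials p a g | Irreducible f ∧ ExoticOnPower (p ^ a) f}.ncard : ℝ) ≤
        C * Real.sqrt ((p : ℝ) ^ a) ^ oddOrder g ∧
      (g ≤ 5 → ({f ∈ weilPolynomials p a g | ExoticOnPower (p ^ a) f}.ncard : ℝ) ≤
        C * Real.sqrt ((p : ℝ) ^ a) ^ oddOrder g) ∧
      -- lower bounds
      ∀ b : ℕ, a = 2 * b → c p < (p : ℝ) ^ b → ((p : ℝ) ^ b) ^ oddOrder g ≤ c p *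
        ({f ∈ weilPolynomials p a g | Irreducible f ∧ HondaTate p a f ∧
          ¬ (p : ℤ) ∣ f.coeff (g + 1) ∧ OfOddWeilType (p ^ a) g f ∧
            ExoticInCodim (p ^ a) g (f ^ 2) ∧ ExoticOnPower (p ^ a) f ∧
            GeneratedByWeilClasses g (p ^ a) f ∧ TateFromCodim g (p ^ a) f}.ncard : ℝ) := by
  simp only [exoticOnPower_iff, generatedByWeilClasses_iff, polesOfAllPowers_iff]
  obtain ⟨C, hC, M, hM, h⟩ := main Pool.Agent.H738.PDP1.p1 all_p3 Pool.Agent.H795.PD4.p4
    Pool.Agent.H548.SGB5.b5 Pool.Agent.H289.PDp6.p6 Pool.Agent.H79.SGB7a.b7a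
    Pool.Agent.H348.SGb7b.b7b Pool.Agent.H333.SG.b7c all_p8 all_p9 Pool.Agent.H233.EF.s3 s13 s17
    Pool.Agent.H643.EF.s18 Pool.Agent.H686.WT.w13 Pool.Agent.H297.WT.w14
    Pool.Agent.H790.PDp17.p17 all_p18 g hg hg3
  obtain ⟨C', hC', c, hc, hcC, hl⟩ := all_constants g hg hg3
  have h1 : C ≤ C + C' := by linarith
  have h1' : C' ≤ C + C' := by linarith
  have hup : ∀ {x y : ℝ}, 0 ≤ y → x ≤ C * y → x ≤ (C + C') * y := fun hy h =>
    h.trans (mul_le_mul_of_nonneg_right h1 hy)
  refine ⟨C + C', by positivity, M, hM, c, hc, fun h5 p => (hcC h5 p).trans h1',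
    fun p _ a ha => ?_⟩
  obtain ⟨⟨h2, h3, h4, h5⟩, h6, h7, h8, h9, h10⟩ := h p a ha
  refine ⟨⟨h2, hup (Nat.cast_nonneg _) h3, hup (by positivity) h4, hup (by positivity) h5⟩, h6,
    fun f hf hi he => ⟨(h7 f hf hi he).1, fun hHT => ?_, (h7 f hf hi he).2⟩,
    hup (by positivity) h8, hup (by positivity) h9, fun hg5 => hup (by positivity) (h10 hg5),
    fun b hb hq => ?_⟩
  · obtain ⟨D, h0, hD, hm, hK, hfh, hcop, hN0⟩ := (h7 f hf hi he).1
    exact ⟨D, h0, hD, hm, hK, hfh, hcop, hN0, fun ψ => Pool.Agent.H857.TF.lifts p a g D f h0 ψ ha
      (by omega) (hg.odd_of_ne_two (by omega)) hf.1 hi hHT hm hK hfh hN0⟩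
  subst hb
  have hb0 : 0 < b := by omega
  refine (hl p b hb0 hq).trans (mul_le_mul_of_nonneg_left ?_ (hc p).le)
  have h6 : {f ∈ Pool.Agent.H857.PA.newtonWeil p (2 * b) g | IsGoodO p b g f} ⊆
      {f ∈ weilPolynomials p (2 * b) g | Irreducible f ∧ HondaTate p (2 * b) f ∧
          ¬ (p : ℤ) ∣ f.coeff (g + 1) ∧ OfOddWeilType (p ^ (2 * b)) g f ∧
            ExoticInCodim (p ^ (2 * b)) g (f ^ 2) ∧ HasExotic (p ^ (2 * b)) f ∧
            GeneratedInCodim g (p ^ (2 * b)) f ∧ TateFromCodim g (p ^ (2 * b)) f} := fun f hf =>
    ⟨hf.1, hf.2.irreducible, hf.2.honda, hf.2.coeff, hf.2.weil, hf.2.exotic, hf.2.has,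
      hf.2.generated, hf.2.tate⟩
  have hfin : (weilPolynomials p (2 * b) g).Finite := h2
  exact_mod_cast Set.ncard_le_ncard h6 (hfin.subset fun f hf => hf.1)

end Pool.Agent.Results.MP_950c68_ag.OddPrimeDimension
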